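import Pool.Agent.MP_bd94e8_al.H89.Spec

/-!
The walk lemma.
-/

set_option autoImplicit false

namespace Pool.Agent.MP_bd94e8_al.H89

namespace PosWA

variable {Pt ι : Type}

/-- The exits of walks that start at a vertex with three points. -/
inductive Exit (vt : Pt → ι) (inc : Pt → Pt → Prop) : Pt → Prop
  | start (x : Pt) : Tri3 vt (vt x) → Exit vt inc x
  | step (x e x' : Pt) : Exit vt inc x → inc x e → vt e = vt x' → e ≠ x' → Exit vt inc x'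

theorem exit_walk {vt : Pt → ι} {inc : Pt → Pt → Prop} {y : Pt} (h : Exit vt inc y) :
    ∃ (r : ℕ) (e x : ℕ → Pt), x r = y ∧ Tri3 vt (vt (x 0)) ∧ (∀ m < r, inc (x m) (e (m + 1))) ∧
      ∀ m, 1 ≤ m → m ≤ r → vt (e m) = vt (x m) ∧ e m ≠ x m := by
  induction h with
  | start x hx => exact ⟨0, fun _ => x, fun _ => x, rfl, hx, by simp, by omega⟩
  | step x e x' _ hi hv hne ih =>
    obtain ⟨r, E, X, h1, h2, h3, h4⟩ := ih
    refine ⟨r + 1, Function.update E (r + 1) e, Function.update X (r + 1) x', by simp, ?_, ?_, ?_⟩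
    · rwa [Function.update_of_ne (by omega)]
    · intro m hm
      rw [Function.update_of_ne (by omega)]
      by_cases e1 : m = r
      · subst e1
        rw [Function.update_self, h1]; exact hi
      · rw [Function.update_of_ne (by omega)]; exact h3 m (by omega)
    · intro m hm hm'
      by_cases e1 : m = r + 1
      · subst e1
        rw [Function.update_self, Function.update_self]; exact ⟨hv, hne⟩
      · rw [Function.update_of_ne e1, Function.update_of_ne e1]; exact h4 m hm (by omega)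

theorem nott_exit {vt : Pt → ι} {inc : Pt → Pt → Prop} (h : NoTT vt inc ∅) {x e : Pt}
    (hx : Exit vt inc x) (hi : inc x e) : ¬ Tri3 vt (vt e) := by
  intro he
  obtain ⟨r, E, X, h1, h2, h3, h4⟩ := exit_walk hx
  refine h r (Function.update E (r + 1) e) X h2 (by simpa using he) (by simp) (by simp) ?_ ?_
  · intro m hm
    by_cases e1 : m = r
    · subst e1
      rw [Function.update_self, h1]; exact hi
    · rw [Function.update_of_ne (by omega)]; exact h3 m (by omega)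
  · intro m hm hm'
    rw [Function.update_of_ne (by omega)]
    exact ⟨(h4 m hm hm').1, (h4 m hm hm').2, by simp⟩

theorem nocyc_of_nopath {vt : Pt → ι} {inc : Pt → Pt → Prop} {L : ℕ} (h : NoPath vt inc L)
    (S : Set (Pt × Pt)) (hne : S.Nonempty)
    (hS : ∀ a ∈ S, vt a.1 = vt a.2 ∧ a.1 ≠ a.2 ∧ ∃ a' ∈ S, inc a.2 a'.1) : False := by
  have hn : ∀ a : S, ∃ a' : S, inc a.1.2 a'.1.1 := fun a => by
    obtain ⟨a', h1, h2⟩ := (hS a.1 a.2).2.2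
    exact ⟨⟨a', h1⟩, h2⟩
  choose f hf using hn
  obtain ⟨a0, h0⟩ := hne
  refine h (fun m => (f^[m] ⟨a0, h0⟩).1.1) (fun m => (f^[m] ⟨a0, h0⟩).1.2) fun m _ => ?_
  refine ⟨(hS _ (f^[m] ⟨a0, h0⟩).2).1, (hS _ (f^[m] ⟨a0, h0⟩).2).2.1, ?_⟩
  simp only [Function.iterate_succ_apply']
  exact hf _

/-- The hypotheses of the walk lemma. -/
structure Ctx (vt : Pt → ι) (arr : Pt → Pt → Prop) (tie : Pt × Pt → Pt × Pt → Prop)
    (Fw Bw : Set (Pt × Pt)) : Prop where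
  cb : Comb vt arr tie
  cyc : ∀ S : Set (Pt × Pt), S.Nonempty →
    (∀ a ∈ S, vt a.1 = vt a.2 ∧ a.1 ≠ a.2 ∧ ∃ a' ∈ S, AInc arr a.2 a'.1) → False
  tt : ∀ x e, Exit vt (AInc arr) x → AInc arr x e → ¬ Tri3 vt (vt e)
  dis : ∀ a, a ∈ Fw → a ∉ Bw
  par : ∀ b ∈ Bw, ∃ a ∈ Fw, tie a b
  cut : ∀ U : Set Pt, (∀ p q, p ∈ U → arr p q → q ∈ U) → ∀ a ∈ Fw, a.1 ∉ U → a.2 ∈ U →
    ∃ b ∈ Bw, b.1 ∉ U ∧ b.2 ∈ U
  nc : ∀ c ∈ Fw ∪ Bw, ¬ Cov arr c →
    ∃ u v, Cov arr u ∧ ¬ Cov arr v ∧ tie c u ∧ tie c v ∧ v ∉ Fw ∧ v ∉ Bw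

variable {vt : Pt → ι} {arr : Pt → Pt → Prop} {tie : Pt × Pt → Pt × Pt → Prop}
  {Fw Bw : Set (Pt × Pt)}

theorem ainc_flip (arr : Pt → Pt → Prop) : AInc (fun p q => arr q p) = AInc arr := by
  funext p q
  exact propext ⟨fun h => ⟨h.1, h.2.2, h.2.1⟩, fun h => ⟨h.1, h.2.2, h.2.1⟩⟩

theorem cov_flip (arr : Pt → Pt → Prop) (a : Pt × Pt) :
    Cov (fun p q => arr q p) a ↔ Cov arr a.swap :=
  ⟨fun h => ⟨h.1, fun ⟨z, h1, h2⟩ => h.2 ⟨z, h2, h1⟩⟩,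
    fun h => ⟨h.1, fun ⟨z, h1, h2⟩ => h.2 ⟨z, h2, h1⟩⟩⟩

theorem comb_flip (h : Comb vt arr tie) :
    Comb vt (fun p q => arr q p) (fun a b => tie a.swap b.swap) where
  irr := h.irr
  trans p q r h1 h2 := h.trans r q p h2 h1
  three := h.three
  tie_arr a b hab := h.tie_arr _ _ hab
  symm a b hab := h.symm _ _ hab
  tie_vt a b hab := by
    obtain ⟨h1, h2, h3, h4⟩ := h.tie_vt _ _ hab
    exact ⟨h2, h1, h4, h3⟩
  tie_trans a b c h1 h2 h3 := h.tie_trans _ _ _ h1 h2 fun e => h3 (Prod.swap_injective e)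
  fac p q z b h1 h2 h3 := by
    obtain ⟨p', z', q', e1, e2, e3⟩ := h.fac q p z b.swap h1 h3 h2
    exact ⟨q', z', p', e2, e1, e3⟩
  pl x y z b c d h1 h2 h3 h4 :=
    h.pl' y x z b.swap c.swap d.swap h1 h2 (fun e => h3 (Prod.swap_injective e)) h4
  pl' x y z b c d h1 h2 h3 h4 :=
    h.pl y x z b.swap c.swap d.swap h1 h2 (fun e => h3 (Prod.swap_injective e)) h4

theorem Ctx.flip (h : Ctx vt arr tie Fw Bw) :
    Ctx vt (fun p q => arr q p) (fun a b => tie a.swap b.swap) {a | a.swap ∈ Fw}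
      {a | a.swap ∈ Bw} where
  cb := comb_flip h.cb
  cyc := by rw [ainc_flip]; exact h.cyc
  tt := by rw [ainc_flip]; exact h.tt
  dis a := h.dis _
  par b hb := by
    obtain ⟨a, h1, h2⟩ := h.par _ hb
    exact ⟨a.swap, h1, h2⟩
  cut U hU a ha h1 h2 := by
    obtain ⟨b, hb, e1, e2⟩ := h.cut Uᶜ (fun p q hp hpq hq => hp (hU q p hq hpq)) _ ha
      (fun e => e h2) h1
    exact ⟨b.swap, hb, e2, not_not.1 e1⟩
  nc c hc h1 := by
    obtain ⟨u, v, e1, e2, e3, e4, e5, e6⟩ := h.nc c.swap hc fun e => h1 ((cov_flip arr c).2 e)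
    exact ⟨u.swap, v.swap, (cov_flip arr _).2 e1, fun e => e2 ((cov_flip arr _).1 e), e3, e4, e5, e6⟩

/-- Trichotomy. -/
theorem tri (arr : Pt → Pt → Prop) (p q : Pt) : p = q ∨ arr p q ∨ arr q p ∨ AInc arr p q := by
  by_cases h1 : p = q
  · exact .inl h1
  by_cases h2 : arr p q
  · exact .inr (.inl h2)
  by_cases h3 : arr q p
  · exact .inr (.inr (.inl h3))
  exact .inr (.inr (.inr ⟨h1, h2, h3⟩))

theorem ainc_symm {p q : Pt} (h : AInc arr p q) : AInc arr q p := ⟨h.1.symm, h.2.2, h.2.1⟩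

theorem tie3 (h : Comb vt arr tie) {a b c : Pt × Pt} (h1 : tie a b) (h2 : tie a c) (h3 : b ≠ c) :
    tie b c := h.tie_trans _ _ _ (h.symm _ _ h1) h2 h3

theorem tri_src (h : Comb vt arr tie) {a b c : Pt × Pt} (h1 : tie a b) (h2 : tie a c) (h3 : b ≠ c) :
    Tri3 vt (vt a.1) :=
  ⟨a.1, b.1, c.1, rfl, (h.tie_vt _ _ h1).1.symm, (h.tie_vt _ _ h2).1.symm, (h.tie_vt _ _ h1).2.2.1,
    (h.tie_vt _ _ h2).2.2.1, (h.tie_vt _ _ (tie3 h h1 h2 h3)).2.2.1⟩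

theorem tri_tgt (h : Comb vt arr tie) {a b c : Pt × Pt} (h1 : tie a b) (h2 : tie a c) (h3 : b ≠ c) :
    Tri3 vt (vt a.2) :=
  ⟨a.2, b.2, c.2, rfl, (h.tie_vt _ _ h1).2.1.symm, (h.tie_vt _ _ h2).2.1.symm,
    (h.tie_vt _ _ h1).2.2.2, (h.tie_vt _ _ h2).2.2.2, (h.tie_vt _ _ (tie3 h h1 h2 h3)).2.2.2⟩

/-- Classes have at most three elements. -/
theorem cls (h : Comb vt arr tie) {a b c d : Pt × Pt} (h1 : tie a b) (h2 : tie a c) (h3 : tie a d)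
    (hbc : b ≠ c) (hbd : b ≠ d) : c = d := by
  by_contra hcd
  rcases h.three (vt a.1) a.1 b.1 c.1 d.1 rfl (h.tie_vt _ _ h1).1.symm (h.tie_vt _ _ h2).1.symm
    (h.tie_vt _ _ h3).1.symm with e | e | e | e | e | e
  · exact (h.tie_vt _ _ h1).2.2.1 e
  · exact (h.tie_vt _ _ h2).2.2.1 e
  · exact (h.tie_vt _ _ h3).2.2.1 e
  · exact (h.tie_vt _ _ (tie3 h h1 h2 hbc)).2.2.1 e
  · exact (h.tie_vt _ _ (tie3 h h1 h3 hbd)).2.2.1 e
  · exact (h.tie_vt _ _ (tie3 h h2 h3 hcd)).2.2.1 e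

/-- The first factor of a tied arrow has only one partner. -/
theorem fst2 (h : Comb vt arr tie) {p z q : Pt} {b c d : Pt × Pt} (h1 : tie (p, q) d)
    (h2 : arr z q) (hb : tie (p, z) b) (hc : tie (p, z) c) : b = c := by
  by_contra e
  exact h.pl p z q b c d hb hc e h2 h1

theorem two (e p x : Pt) (h : ¬ Tri3 vt (vt e)) (hp : vt p = vt e) (hx : vt x = vt e) (h1 : p ≠ e)
    (h2 : x ≠ p) : x = e := by
  by_contra h3
  exact h ⟨e, p, x, rfl, hp, hx, h1.symm, fun e' => h3 e'.symm, h2.symm⟩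

theorem ncov {p z q : Pt} (h1 : arr p z) (h2 : arr z q) : ¬ Cov arr (p, q) :=
  fun h => h.2 ⟨z, h1, h2⟩

theorem cov_inc {p q s : Pt} (h1 : Cov arr (p, q)) (h2 : Cov arr (p, s)) (h3 : q ≠ s) :
    AInc arr q s := ⟨h3, fun e => ncov h1.1 e h2, fun e => ncov h2.1 e h1⟩

/-- The interval of an arrow that is tied to a cover is a chain. -/
theorem Ctx.ch (h : Ctx vt arr tie Fw Bw) {p q z y : Pt} {u : Pt × Pt} (hu : Cov arr u)
    (ht : tie (p, q) u) (h1 : arr p z) (h2 : arr z q) (h3 : arr p y) (h4 : arr y q) :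
    ¬ AInc arr z y := by
  intro hi
  have c := h.cb
  obtain ⟨p', z', q', e1, e2, e3⟩ := c.fac p q z u ht h1 h2
  obtain ⟨p'', y', q'', f1, f2, f3⟩ := c.fac p q y u ht h3 h4
  have a1 : arr p' z' := c.tie_arr _ _ (c.symm _ _ e1)
  have a2 : arr z' q' := c.tie_arr _ _ (c.symm _ _ e2)
  have a3 : arr p'' y' := c.tie_arr _ _ (c.symm _ _ f1)
  have a4 : arr y' q'' := c.tie_arr _ _ (c.symm _ _ f2)
  have E : (p', q') = (p'', q'') := cls c ht e3 f3 (fun e => ncov a1 a2 (e ▸ hu))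
    (fun e => ncov a3 a4 (e ▸ hu))
  obtain ⟨rfl, rfl⟩ := Prod.mk.inj E
  have key : ∀ {z y z' y' : Pt}, tie (p, z) (p', z') → tie (p, y) (p', y') → arr z' q' →
      arr y' q' → arr z' y' → arr z y := by
    intro z y z' y' e1 f1 a2 a4 a
    obtain ⟨p1, z1, y1, g1, g2, g3⟩ := c.fac p' y' z' _ (c.symm _ _ f1)
      (c.tie_arr _ _ (c.symm _ _ e1)) a
    have E1 := fst2 c (c.symm _ _ e3) a2 g1 (c.symm _ _ e1)
    have E2 := fst2 c (c.symm _ _ e3) a4 g3 (c.symm _ _ f1)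
    obtain ⟨-, rfl⟩ := Prod.mk.inj E1
    obtain ⟨-, rfl⟩ := Prod.mk.inj E2
    exact c.tie_arr _ _ (c.symm _ _ g2)
  have hi' : AInc arr z' y' := by
    refine ⟨fun e => ?_, fun a => hi.2.1 (key e1 f1 a2 a4 a), fun a => hi.2.2 (key f1 e1 a4 a2 a)⟩
    subst e
    exact hi.1 (Prod.mk.inj (fst2 c (c.symm _ _ e3) a2 (c.symm _ _ e1) (c.symm _ _ f1))).2
  refine h.cyc {(z, z'), (y', y)} ⟨_, .inl rfl⟩ ?_
  rintro a (rfl | rfl)
  · exact ⟨(c.tie_vt _ _ e1).2.1, (c.tie_vt _ _ e1).2.2.2, _, .inr rfl, hi'⟩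
  · exact ⟨(c.tie_vt _ _ f1).2.1.symm, (c.tie_vt _ _ f1).2.2.2.symm, _, .inl rfl, ainc_symm hi⟩

theorem Ctx.src3 (h : Ctx vt arr tie Fw Bw) {a : Pt × Pt} (ha : a ∈ Fw ∪ Bw) (hc : ¬ Cov arr a) :
    Tri3 vt (vt a.1) := by
  obtain ⟨u, v, e1, e2, e3, e4, -⟩ := h.nc a ha hc
  exact tri_src h.cb e3 e4 fun e => e2 (e ▸ e1)

theorem Ctx.tgt3 (h : Ctx vt arr tie Fw Bw) {a : Pt × Pt} (ha : a ∈ Fw ∪ Bw) (hc : ¬ Cov arr a) :
    Tri3 vt (vt a.2) := by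
  obtain ⟨u, v, e1, e2, e3, e4, -⟩ := h.nc a ha hc
  exact tri_tgt h.cb e3 e4 fun e => e2 (e ▸ e1)

theorem Ctx.cov2 (h : Ctx vt arr tie Fw Bw) {a : Pt × Pt} (ha : a ∈ Fw ∪ Bw)
    (h3 : ¬ Tri3 vt (vt a.1)) : Cov arr a := by
  by_contra hc
  exact h3 (h.src3 ha hc)

theorem Ctx.farr (h : Ctx vt arr tie Fw Bw) {a b : Pt × Pt} (ht : tie a b) : arr b.1 b.2 :=
  h.cb.tie_arr _ _ (h.cb.symm _ _ ht)

/-- The cut above the source of an arrow. -/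
theorem Ctx.up (h : Ctx vt arr tie Fw Bw) {p q : Pt} (ha : (p, q) ∈ Fw) (hpq : arr p q) :
    ∃ r s, (r, s) ∈ Bw ∧ arr p s ∧ (p = r ∨ arr r p ∨ AInc arr p r) := by
  obtain ⟨b, hb, h1, h2⟩ := h.cut {z | arr p z} (fun x y hx hxy => h.cb.trans _ _ _ hx hxy) _ ha
    (h.cb.irr p) hpq
  refine ⟨b.1, b.2, hb, h2, ?_⟩
  rcases tri arr p b.1 with e | e | e | e
  · exact .inl e
  · exact (h1 e).elim
  · exact .inr (.inl e)
  · exact .inr (.inr e)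

/-- The step at a vertex with two points. -/
theorem Ctx.step (h : Ctx vt arr tie Fw Bw) {e q' p q : Pt} (hb : (e, q') ∈ Bw) (ha : (p, q) ∈ Fw)
    (ht : tie (p, q) (e, q')) (h3 : ¬ Tri3 vt (vt e)) :
    ∃ r s, (r, s) ∈ Bw ∧ arr p s ∧ (arr r p ∨ AInc arr p r) := by
  have c := h.cb
  have v1 : vt p = vt e := (c.tie_vt _ _ ht).1
  have n1 : p ≠ e := (c.tie_vt _ _ ht).2.2.1
  obtain ⟨r, s, hb', h1, e1 | e1⟩ := h.up ha (c.tie_arr _ _ ht)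
  · subst e1
    exfalso
    obtain ⟨⟨e', r'⟩, ha', ht'⟩ := h.par _ hb'
    have E : e' = e := two e p e' h3 v1 ((c.tie_vt _ _ ht').1.trans v1) n1 (c.tie_vt _ _ ht').2.2.1
    subst E
    have h3' : ¬ Tri3 vt (vt p) := v1 ▸ h3
    have i1 : AInc arr q s := cov_inc (h.cov2 (.inl ha) h3') (h.cov2 (.inr hb') h3')
      fun E => h.dis _ ha (E ▸ hb')
    have i2 : AInc arr r' q' := cov_inc (h.cov2 (.inl ha') h3) (h.cov2 (.inr hb) h3)
      fun E => h.dis _ ha' (E ▸ hb)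
    refine h.cyc {(q', q), (s, r')} ⟨_, .inl rfl⟩ ?_
    rintro a (rfl | rfl)
    · exact ⟨(c.tie_vt _ _ ht).2.1.symm, (c.tie_vt _ _ ht).2.2.2.symm, _, .inr rfl, i1⟩
    · exact ⟨(c.tie_vt _ _ ht').2.1.symm, (c.tie_vt _ _ ht').2.2.2.symm, _, .inl rfl, i2⟩
  · exact ⟨r, s, hb', h1, e1⟩

/-- No walk from a vertex with three points reaches the source of a backward arrow. -/
theorem Ctx.w1 (h : Ctx vt arr tie Fw Bw) {x : Pt} {b : Pt × Pt} (hx : Exit vt (AInc arr) x)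
    (hb : b ∈ Bw) : ¬ AInc arr x b.1 := by
  intro hi
  have c := h.cb
  refine h.cyc {a | ∃ q' q x, (a.1, q') ∈ Bw ∧ (a.2, q) ∈ Fw ∧ tie (a.2, q) (a.1, q') ∧
    Exit vt (AInc arr) x ∧ AInc arr x a.1} ?_ ?_
  · obtain ⟨a, ha, ht⟩ := h.par _ hb
    exact ⟨(b.1, a.1), b.2, a.2, x, hb, ha, ht, hx, hi⟩
  rintro ⟨e, p⟩ ⟨q', q, x, hb, ha, ht, hx, hi⟩
  dsimp only at hb ha ht hi ⊢
  have v1 : vt p = vt e := (c.tie_vt _ _ ht).1
  have n1 : p ≠ e := (c.tie_vt _ _ ht).2.2.1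
  have h3 : ¬ Tri3 vt (vt e) := h.tt x e hx hi
  refine ⟨v1.symm, n1.symm, ?_⟩
  obtain ⟨r, s, hb', h1, e1 | e1⟩ := h.step hb ha ht h3
  · exfalso
    obtain ⟨u, v, u1, u2, u3, u4, -⟩ := h.nc _ (.inr hb') (ncov e1 h1)
    have uv : u ≠ v := fun E => u2 (E ▸ u1)
    obtain ⟨r', p', s', g1, g2, g3⟩ := c.fac r s p u u3 e1 h1
    have E : p' = e := two e p p' h3 v1 ((c.tie_vt _ _ g2).1.symm.trans v1) n1
      (c.tie_vt _ _ g2).2.2.1.symm
    subst E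
    have a1 : arr r' p' := h.farr g1
    have a2 : arr p' s' := h.farr g2
    have t1 : Tri3 vt (vt r') := (c.tie_vt _ _ g3).1 ▸ tri_src c u3 u4 uv
    have t2 : Tri3 vt (vt s') := (c.tie_vt _ _ g3).2.1 ▸ tri_tgt c u3 u4 uv
    have b1 : arr r' x := by
      rcases tri arr x r' with E | E | E | E
      · exact (hi.2.1 (E ▸ a1)).elim
      · exact (hi.2.1 (c.trans _ _ _ E a1)).elim
      · exact E
      · exact (h.tt x r' hx E t1).elim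
    have b2 : arr x s' := by
      rcases tri arr x s' with E | E | E | E
      · exact (hi.2.2 (E ▸ a2)).elim
      · exact E
      · exact (hi.2.2 (c.trans _ _ _ a2 E)).elim
      · exact (h.tt x s' hx E t2).elim
    exact h.ch u1 (tie3 c g3 u3 fun E => ncov a1 a2 (E ▸ u1)) b1 b2 a1 a2 hi
  · obtain ⟨a', ha', ht'⟩ := h.par _ hb'
    exact ⟨(r, a'.1), ⟨s, a'.2, p, hb', ha', ht', .step x e p hx hi v1.symm n1.symm, e1⟩, e1⟩

theorem Ctx.w1' (h : Ctx vt arr tie Fw Bw) {x r s : Pt} (hx : Tri3 vt (vt x)) (hb : (r, s) ∈ Bw) :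
    ¬ AInc arr x r := h.w1 (.start x hx) hb

theorem Ctx.w2 (h : Ctx vt arr tie Fw Bw) {x r s : Pt} (hx : Tri3 vt (vt x)) (hb : (r, s) ∈ Bw) :
    ¬ AInc arr x s := by
  have := h.flip.w1' (r := s) (s := r) hx hb
  rwa [ainc_flip] at this

/-- Some backward arrow starts at a vertex with three points. -/
theorem Ctx.w3 (h : Ctx vt arr tie Fw Bw) (hne : Bw.Nonempty) : ∃ b ∈ Bw, Tri3 vt (vt b.1) := by
  by_contra hn
  have hn' : ∀ b ∈ Bw, ¬ Tri3 vt (vt b.1) := fun b hb e => hn ⟨b, hb, e⟩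
  have c := h.cb
  refine h.cyc {a | ∃ q' q, (a.1, q') ∈ Bw ∧ (a.2, q) ∈ Fw ∧ tie (a.2, q) (a.1, q')} ?_ ?_
  · obtain ⟨b, hb⟩ := hne
    obtain ⟨a, ha, ht⟩ := h.par _ hb
    exact ⟨(b.1, a.1), b.2, a.2, hb, ha, ht⟩
  rintro ⟨e, p⟩ ⟨q', q, hb, ha, ht⟩
  dsimp only at hb ha ht ⊢
  refine ⟨(c.tie_vt _ _ ht).1.symm, (c.tie_vt _ _ ht).2.2.1.symm, ?_⟩
  obtain ⟨r, s, hb', h1, e1 | e1⟩ := h.step hb ha ht (hn' _ hb)
  · exact (hn' _ hb' (h.src3 (.inr hb') (ncov e1 h1))).elim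
  · obtain ⟨a', ha', ht'⟩ := h.par _ hb'
    exact ⟨(r, a'.1), ⟨s, a'.2, hb', ha', ht'⟩, e1⟩

/-- Backward arrows are covers. -/
theorem Ctx.w4a (h : Ctx vt arr tie Fw Bw) {b : Pt × Pt} (hb : b ∈ Bw) : Cov arr b := by
  by_contra hc
  have c := h.cb
  obtain ⟨u, v, u1, u2, u3, u4, u5, -⟩ := h.nc _ (.inr hb) hc
  have uv : u ≠ v := fun E => u2 (E ▸ u1)
  obtain ⟨a, ha, ht⟩ := h.par _ hb
  have E : u = a := cls c u4 u3 (c.symm _ _ ht) uv.symm fun E => u5 (E ▸ ha)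
  subst E
  obtain ⟨x, y⟩ := u
  have t1 : tie (x, y) v := tie3 c u3 u4 uv
  have bv : b ≠ v := fun E => (c.tie_vt _ _ u4).2.2.1 (congrArg Prod.fst E)
  obtain ⟨r, s, hb', h1, e1⟩ := h.up ha u1.1
  obtain ⟨a', -, ht'⟩ := h.par _ hb'
  have ht'' := c.symm _ _ ht'
  have e2 : x = r ∨ arr r x := by
    rcases e1 with e | e | e
    · exact .inl e
    · exact .inr e
    · exact (h.w1' (tri_src c ht t1 bv) hb' e).elim
  rcases tri arr y s with e | e | e | e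
  · subst e
    rcases e2 with e | e
    · subst e; exact h.dis _ ha hb'
    · exact c.pl' x y r b v a' ht t1 bv e ht''
  · rcases e2 with e' | e'
    · subst e'; exact c.pl x y s b v a' ht t1 bv e ht''
    · obtain ⟨_, _, _, -, g2, -⟩ := c.fac r s x a' ht'' e' h1
      exact c.pl x y s b v _ ht t1 bv e g2
  · exact ncov h1 e u1
  · exact h.w2 (tri_tgt c ht t1 bv) hb' e

/-- The cut at a vertex with three points. -/
theorem Ctx.up3 (h : Ctx vt arr tie Fw Bw) {p q : Pt} (ha : (p, q) ∈ Fw) (hpq : arr p q)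
    (h3 : Tri3 vt (vt p)) : ∃ s, (p, s) ∈ Bw := by
  obtain ⟨r, s, hb, h1, e | e | e⟩ := h.up ha hpq
  · exact ⟨s, e ▸ hb⟩
  · exact (ncov e h1 (h.w4a hb)).elim
  · exact (h.w1' h3 hb e).elim

/-- Forward arrows are covers. -/
theorem Ctx.w4b (h : Ctx vt arr tie Fw Bw) {a : Pt × Pt} (ha : a ∈ Fw) : Cov arr a := by
  by_contra hc
  have c := h.cb
  obtain ⟨x, y⟩ := a
  obtain ⟨u, v, u1, u2, u3, u4, -⟩ := h.nc _ (.inl ha) hc
  have uv : u ≠ v := fun E => u2 (E ▸ u1)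
  have axy : arr x y := c.tie_arr _ _ u3
  have t1 : Tri3 vt (vt x) := tri_src c u3 u4 uv
  have t2 : Tri3 vt (vt y) := tri_tgt c u3 u4 uv
  obtain ⟨s, hb⟩ := h.up3 ha axy t1
  have cb := h.w4a hb
  have a1 : arr s y := by
    rcases tri arr y s with e | e | e | e
    · subst e; exact (h.dis _ ha hb).elim
    · exact (ncov axy e cb).elim
    · exact e
    · exact (h.w2 t2 hb e).elim
  obtain ⟨x', s', y', g1, g2, g3⟩ := c.fac x y s u u3 cb.1 a1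
  obtain ⟨a', ha', ht'⟩ := h.par _ hb
  have E : a' = (x', s') := fst2 c u3 a1 (c.symm _ _ ht') g1
  subst E
  have b1 : arr x' s' := h.farr g1
  have b2 : arr s' y' := h.farr g2
  have c1 : Cov arr (x', s') := by
    by_contra hc'
    obtain ⟨u', v', w1, w2, w3, w4, -⟩ := h.nc _ (.inl ha') hc'
    exact w2 (fst2 c (c.symm _ _ g3) b2 w3 w4 ▸ w1)
  have t1' : Tri3 vt (vt x') := (c.tie_vt _ _ g3).1 ▸ t1
  have t2' : Tri3 vt (vt y') := (c.tie_vt _ _ g3).2.1 ▸ t2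
  obtain ⟨r, hb'⟩ := h.up3 ha' b1 t1'
  have cb' := h.w4a hb'
  have a2 : arr r y' := by
    rcases tri arr y' r with e | e | e | e
    · subst e; exact (ncov b1 b2 cb').elim
    · exact (ncov (c.trans _ _ _ b1 b2) e cb').elim
    · exact e
    · exact (h.w2 t2' hb' e).elim
  exact h.ch u1 (tie3 c g3 u3 fun E => ncov b1 b2 (E ▸ u1)) b1 b2 cb'.1 a2
    (cov_inc c1 cb' fun E => h.dis _ ha' (E ▸ hb'))

theorem Ctx.fin (h : Ctx vt arr tie Fw Bw) (hne : Bw.Nonempty) : False := by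
  have c := h.cb
  refine h.cyc {a | ∃ p p', (p, a.1) ∈ Bw ∧ (p', a.2) ∈ Fw ∧ tie (p', a.2) (p, a.1) ∧
    Tri3 vt (vt p)} ?_ ?_
  · obtain ⟨b, hb, h3⟩ := h.w3 hne
    obtain ⟨a, ha, ht⟩ := h.par _ hb
    exact ⟨(b.2, a.2), b.1, a.1, hb, ha, ht, h3⟩
  rintro ⟨s, s'⟩ ⟨p, p', hb, ha, ht, h3⟩
  dsimp only at hb ha ht ⊢
  refine ⟨(c.tie_vt _ _ ht).2.1.symm, (c.tie_vt _ _ ht).2.2.2.symm, ?_⟩
  have h3' : Tri3 vt (vt p') := (c.tie_vt _ _ ht).1.symm ▸ h3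
  obtain ⟨s'', hb'⟩ := h.up3 ha (c.tie_arr _ _ ht) h3'
  obtain ⟨a', ha', ht'⟩ := h.par _ hb'
  exact ⟨(s'', a'.2), ⟨p', a'.1, hb', ha', ht', h3'⟩,
    cov_inc (h.w4b ha) (h.w4a hb') fun E => h.dis _ ha (E ▸ hb')⟩

end PosWA

/-- The walk lemma. -/
theorem posW : SPosW := by
  intro Pt ι _ vt arr tie L hc _ hp ht Fw Bw _ hd hne h1 h2 h3
  exact PosWA.Ctx.fin ⟨hc, PosWA.nocyc_of_nopath hp, fun _ _ => PosWA.nott_exit ht,
    fun a ha hb => Set.disjoint_left.1 hd ha hb, h1, h2, h3⟩ hne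

end Pool.Agent.MP_bd94e8_al.H89
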